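import Pool.Agent.H11.NL.En

set_option autoImplicit false

open Filter Topology

namespace Pool.Agent.Results.MP_3ca58e_al.NoLoxodromics

open Pool.Agent.H11.NL

/-- Let `G` be a non-cyclic group all of whose elements are conjugate to powers of one element `a`.
Then in every action of `G` by isometries on a hyperbolic space (a pseudometric space with Gromov's
four point condition for some `δ`) every element has translation number zero: no element of `G` is
loxodromic. -/
theorem result {G : Type*} [Group G] (hG : ¬ IsCyclic G)
    (a : G) (hC : ∀ g : G, ∃ k : ℤ, IsConj g (a ^ k))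
    {X : Type*} [PseudoMetricSpace X] {δ : ℝ}
    (hfour : ∀ x y z w : X,
      dist x y + dist z w ≤ max (dist x z + dist y w) (dist x w + dist y z) + 2 * δ)
    [MulAction G X] [IsIsometricSMul G X] (g : G) (o : X) :
    Tendsto (fun n : ℕ => dist o (g ^ n • o) / n) atTop (𝓝 0) := by
  have hX : Hyp4 δ X := hfour
  have h1 := sl_tendsto o g
  suffices h2 : sl o g = 0 by rwa [h2] at h1
  by_contra h2
  obtain ⟨k, hk⟩ := val hC o g
  have ha : 0 < sl o a := by
    refine lt_of_le_of_ne (sl_nonneg o a) fun h3 => h2 ?_
    rw [hk, ← h3, mul_zero]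
  exact hG ⟨⟨a, fun y => all_mem hX hC ha y⟩⟩

end Pool.Agent.Results.MP_3ca58e_al.NoLoxodromics
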