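import Pool.Agent.H11.NL.Qr

set_option autoImplicit false

namespace Pool.Agent.Results.MP_3ca58e_al.NoQuasimorphisms

open Pool.Agent.H11.NL

/-- Let `G` be a non-cyclic group all of whose elements are conjugate to powers of one element `a`.
Then every real-valued quasimorphism on `G` is bounded. -/
theorem result {G : Type*} [Group G] (hG : ¬ IsCyclic G)
    (a : G) (hC : ∀ g : G, ∃ k : ℤ, IsConj g (a ^ k))
    (f : G → ℝ) (D : ℝ) (hf : ∀ x y : G, |f (x * y) - f x - f y| ≤ D) :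
    ∃ B : ℝ, ∀ g : G, |f g| ≤ B := by
  by_contra hcon
  push Not at hcon
  refine hG ⟨⟨a, fun y => ?_⟩⟩
  obtain ⟨k, hk⟩ := cyclic_of_qm hC hf hcon y
  exact Subgroup.mem_zpowers_iff.2 ⟨k, hk.symm⟩

end Pool.Agent.Results.MP_3ca58e_al.NoQuasimorphisms
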