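import Pool.Agent.H67.CConj.Simple

set_option autoImplicit false

namespace Pool.Agent.Results.MP_3ca58e_al.SimpleReduction

open Pool.Agent.H67.CConj

/-- Anosov's question reduces to simple groups: there is a finitely presented non-cyclic group
with property (C) if and only if there is a finitely presented non-cyclic simple one. -/
theorem result :
    (∃ (n : ℕ) (rels : Finset (FreeGroup (Fin n))),
      ¬ IsCyclic (PresentedGroup (rels : Set (FreeGroup (Fin n)))) ∧
      ∃ a : PresentedGroup (rels : Set (FreeGroup (Fin n))),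
        ∀ g : PresentedGroup (rels : Set (FreeGroup (Fin n))),
          ∃ k : ℤ, IsConj g (a ^ k)) ↔
    (∃ (n : ℕ) (rels : Finset (FreeGroup (Fin n))),
      IsSimpleGroup (PresentedGroup (rels : Set (FreeGroup (Fin n)))) ∧
      ¬ IsCyclic (PresentedGroup (rels : Set (FreeGroup (Fin n)))) ∧
      ∃ a : PresentedGroup (rels : Set (FreeGroup (Fin n))),
        ∀ g : PresentedGroup (rels : Set (FreeGroup (Fin n))),
          ∃ k : ℤ, IsConj g (a ^ k)) := by
  constructor
  · rintro ⟨n, rels, hnc, a, hC⟩
    obtain ⟨M, hM, hfp, hs, hnc', b, hb⟩ := PropC.exists_simple (a := a) hC hnc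
    exact exists_presented hs hnc' hb
  · rintro ⟨n, rels, -, hnc, a, hC⟩
    exact ⟨n, rels, hnc, a, hC⟩

end Pool.Agent.Results.MP_3ca58e_al.SimpleReduction
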