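import Pool.Agent.H67.CConj.Hyp

set_option autoImplicit false

namespace Pool.Agent.Results.MP_3ca58e_al.TreeFixedPoint

open Pool.Agent.H67.CConj

/-- Let `G` be a finitely generated non-cyclic group all of whose elements are conjugate to powers
of one element `a`.  Then every action of `G` by isometries on an `ℝ`-tree has a global fixed
point.  Of the space `X` only the four point condition and the existence of midpoints are used,
both of which hold in every `ℝ`-tree. -/
theorem result {G : Type*} [Group G] [Group.FG G] (hG : ¬ IsCyclic G)
    (a : G) (hC : ∀ g : G, ∃ k : ℤ, IsConj g (a ^ k))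
    {X : Type*} [MetricSpace X] [Nonempty X]
    (hfour : ∀ x y z w : X,
      dist x y + dist z w ≤ max (dist x z + dist y w) (dist x w + dist y z))
    (hmid : ∀ x y : X, ∃ m : X, dist x m = dist x y / 2 ∧ dist m y = dist x y / 2)
    [MulAction G X] [IsIsometricSMul G X] :
    ∃ p : X, ∀ g : G, g • p = p := by
  apply ell_fixed hfour hmid
  intro x g
  by_contra hcon
  push Not at hcon
  exact hG (cyclic_of_hyp hfour hmid a hC g x hcon)

end Pool.Agent.Results.MP_3ca58e_al.TreeFixedPoint
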